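import Mathlib
import Pool.Agent.Q108.QP.Basic
import Pool.Agent.Q108.QP.Tower
import Pool.Agent.Q108.QP.Sum

set_option autoImplicit false

/-!
# MP_21276c_lc: a non-selective q-point that is a Fubini iterate of p-points (under CH)
-/

namespace Pool.Agent.Results.MP_21276c_lc.NonSelectiveQPoint

/-- `U` is a p-point (nonprincipal, pseudo-intersections inside `U`). -/
def IsPPoint (U : Ultrafilter ℕ) : Prop :=
  (∀ n : ℕ, ({n} : Set ℕ) ∉ U) ∧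
    ∀ A : ℕ → Set ℕ, (∀ n, A n ∈ U) → ∃ X ∈ U, ∀ n, (X \ A n).Finite

/-- `U` is a q-point. -/
def IsQPoint (U : Ultrafilter ℕ) : Prop :=
  (∀ n : ℕ, ({n} : Set ℕ) ∉ U) ∧
    ∀ f : ℕ → ℕ, (∀ m : ℕ, {n : ℕ | f n = m}.Finite) → ∃ X ∈ U, Set.InjOn f X

/-- `U` is selective. -/
def IsSelective (U : Ultrafilter ℕ) : Prop :=
  (∀ n : ℕ, ({n} : Set ℕ) ∉ U) ∧
    ∀ f : ℕ → ℕ, (∃ X ∈ U, ∃ c : ℕ, ∀ x ∈ X, f x = c) ∨ ∃ X ∈ U, Set.InjOn f X

/-- `V` is Tukey reducible to `U` (monotone cofinal map). -/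
def TukeyLE (V U : Ultrafilter ℕ) : Prop :=
  ∃ g : Set ℕ → Set ℕ, (∀ A ∈ U, g A ∈ V) ∧
    (∀ A ∈ U, ∀ B ∈ U, A ⊆ B → g A ⊆ g B) ∧
    ∀ B ∈ V, ∃ A ∈ U, g A ⊆ B

/-- The Fubini limit `lim_{n → W} V n`, coded on `ℕ` by the pairing function. -/
noncomputable def fubiniLim (W : Ultrafilter ℕ) (V : ℕ → Ultrafilter ℕ) : Ultrafilter ℕ :=
  W.bind (fun n => (V n).map (Nat.pair n))

/-- Finite Fubini iterates of p-points: `Iterate k U` says that `U` is an iterate of depth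
at most `k + 1`. -/
inductive Iterate : ℕ → Ultrafilter ℕ → Prop
  | base (W : Ultrafilter ℕ) (h : IsPPoint W) : Iterate 0 W
  | mono (j : ℕ) (W : Ultrafilter ℕ) (h : Iterate j W) : Iterate (j + 1) W
  | lim (j : ℕ) (W : Ultrafilter ℕ) (V : ℕ → Ultrafilter ℕ) (h : IsPPoint W)
      (hV : ∀ n, Iterate j (V n)) : Iterate (j + 1) (fubiniLim W V)

/-- (1) In ZFC: if `W` is a p-point and `V 0, V 1, ...` are selective ultrafilters none of which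
is an image of an earlier one, then the Fubini limit `lim_{n → W} V n` is a Fubini iterate of
p-points of depth two, is a q-point, is Tukey reducible to itself, and is neither a p-point nor
selective.

(2) Under the continuum hypothesis such `W` and `V n` exist; hence there are a finite Fubini
iterate of p-points `U` and a q-point `V ≤_T U` that is not selective.

(3) Under the continuum hypothesis the statement asked for in the problem (frozen form) is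
false. -/
theorem result :
    (∀ (W : Ultrafilter ℕ) (V : ℕ → Ultrafilter ℕ), IsPPoint W → (∀ n, IsSelective (V n)) →
      (∀ m n, m < n → ∀ g : ℕ → ℕ, (V m).map g ≠ V n) →
      Iterate 1 (fubiniLim W V) ∧ IsQPoint (fubiniLim W V) ∧
        TukeyLE (fubiniLim W V) (fubiniLim W V) ∧ ¬ IsPPoint (fubiniLim W V) ∧
        ¬ IsSelective (fubiniLim W V)) ∧
    (Cardinal.continuum.{0} = Cardinal.aleph 1 →
      ∃ U V : Ultrafilter ℕ, Iterate 1 U ∧ IsQPoint V ∧ TukeyLE V U ∧ ¬ IsSelective V) ∧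
    (Cardinal.continuum.{0} = Cardinal.aleph 1 →
      ¬ (∀ U V : Ultrafilter ℕ, ∀ k : ℕ,
      (∀ S : ℕ → Set (Ultrafilter ℕ),
        (∀ W : Ultrafilter ℕ,
          ((∀ n : ℕ, ({n} : Set ℕ) ∉ W) ∧
            ∀ A : ℕ → Set ℕ, (∀ n, A n ∈ W) → ∃ X ∈ W, ∀ n, (X \ A n).Finite) →
          W ∈ S 0) →
        (∀ j : ℕ, ∀ W : Ultrafilter ℕ, W ∈ S j → W ∈ S (j + 1)) →
        (∀ j : ℕ, ∀ W : Ultrafilter ℕ, ∀ Y : ℕ → Ultrafilter ℕ,
          ((∀ n : ℕ, ({n} : Set ℕ) ∉ W) ∧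
            ∀ A : ℕ → Set ℕ, (∀ n, A n ∈ W) → ∃ X ∈ W, ∀ n, (X \ A n).Finite) →
          (∀ n, Y n ∈ S j) →
          W.bind (fun n => (Y n).map (Nat.pair n)) ∈ S (j + 1)) →
        U ∈ S k) →
      ((∀ n : ℕ, ({n} : Set ℕ) ∉ V) ∧
        ∀ f : ℕ → ℕ, (∀ m : ℕ, {n : ℕ | f n = m}.Finite) → ∃ X ∈ V, Set.InjOn f X) →
      (∃ g : Set ℕ → Set ℕ, (∀ A ∈ U, g A ∈ V) ∧
        (∀ A ∈ U, ∀ B ∈ U, A ⊆ B → g A ⊆ g B) ∧
        ∀ B ∈ V, ∃ A ∈ U, g A ⊆ B) →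
      ((∀ n : ℕ, ({n} : Set ℕ) ∉ V) ∧
        ∀ f : ℕ → ℕ, (∃ X ∈ V, ∃ c : ℕ, ∀ x ∈ X, f x = c) ∨ ∃ X ∈ V, Set.InjOn f X))) := by
  have key : ∀ (W : Ultrafilter ℕ) (V : ℕ → Ultrafilter ℕ), IsPPoint W →
      (∀ n, IsSelective (V n)) →
      (∀ m n, m < n → ∀ g : ℕ → ℕ, (V m).map g ≠ V n) →
      Iterate 1 (fubiniLim W V) ∧ IsQPoint (fubiniLim W V) ∧
        TukeyLE (fubiniLim W V) (fubiniLim W V) ∧ ¬ IsPPoint (fubiniLim W V) ∧
        ¬ IsSelective (fubiniLim W V) := by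
    intro W V hW hV hd
    have hV' : ∀ n, Q108.QP.Selective (V n) := hV
    refine ⟨Iterate.lim 0 W V hW fun n => Iterate.base _ (hV' n).ppoint,
      Q108.QP.lim_qpoint W hV' hd,
      ⟨id, fun A hA => hA, fun A _ B _ h => h, fun B hB => ⟨B, hB, subset_rfl⟩⟩,
      Q108.QP.lim_not_ppoint hW.1 fun n => (hV n).1,
      Q108.QP.lim_not_selective hW.1 fun n => (hV n).1⟩
  have ex : Cardinal.continuum.{0} = Cardinal.aleph 1 →
      ∃ (W : Ultrafilter ℕ) (V : ℕ → Ultrafilter ℕ), IsPPoint W ∧ (∀ n, IsSelective (V n)) ∧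
        (∀ m n, m < n → ∀ g : ℕ → ℕ, (V m).map g ≠ V n) := by
    intro ch
    obtain ⟨V, hV, hd⟩ := Q108.QP.exists_seq ch
    exact ⟨V 0, V, (hV 0).ppoint, hV, hd⟩
  refine ⟨key, fun ch => ?_, fun ch h => ?_⟩
  · obtain ⟨W, V, hW, hV, hd⟩ := ex ch
    obtain ⟨h1, h2, h3, -, h5⟩ := key W V hW hV hd
    exact ⟨_, _, h1, h2, h3, h5⟩
  · obtain ⟨W, V, hW, hV, hd⟩ := ex ch
    obtain ⟨-, h2, h3, -, h5⟩ := key W V hW hV hd
    apply h5
    refine h (fubiniLim W V) (fubiniLim W V) 1 ?_ h2 h3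
    intro S hS0 _ hS2
    exact hS2 0 W V hW fun n => hS0 (V n) (Q108.QP.Selective.ppoint (hV n))

end Pool.Agent.Results.MP_21276c_lc.NonSelectiveQPoint
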